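import Pool.Agent.H740R3.BQStmts

/-! Task Stage of project H740-BQ. -/

set_option autoImplicit false

open Filter Topology

namespace Pool.Agent.H421R3.BQ

open Pool.Agent.H740R3.BQ

theorem stage (h0 : T0) (h1a : T1a) (h1b : T1b) (h1c : T1c) (h2a : T2a) (h2 : T2) (h3a : T3a)
    (h3s : T3s) (h3 : T3) (h4 : T4) (h5 : T5) : Stage := by
  intro d c p hd hc hp ε hε
  have hG : (GM d (dinf (p 0))).det ≠ 0 := h1b h1a d (p 0)
  have hK : (KM d (dinf (p 0))).det ≠ 0 := h1c h1a d (p 0)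
  obtain ⟨hunit, hB⟩ := h2 h0 h2a d p hd hG
  obtain ⟨L, hL0, hLG⟩ := h3 h0 h3a h3s d p c hd hc hK
  have e1 : ∀ᶠ ν : ℕ in atTop, ∀ i j : Fin (6 * d + 6),
      ‖BM d p ν i j - (if (i : ℕ) = j + 1 ∧ (i : ℕ) < d then 1 else 0)‖ < ε := by
    rw [eventually_all]
    intro i
    rw [eventually_all]
    intro j
    have h := (Metric.tendsto_nhds.1 (hB i j)) ε hε
    filter_upwards [h] with ν hν
    rwa [dist_eq_norm] at hν
  have e2 : ∀ᶠ ν : ℕ in atTop, ∀ i j : Fin (6 * d + 6),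
      ‖Gam (L ν) (HM d p ν) i j - (if (i : ℕ) < d ∧ (j : ℕ) < d then c (i + j) else 0)‖ < ε := by
    rw [eventually_all]
    intro i
    rw [eventually_all]
    intro j
    have h := (Metric.tendsto_nhds.1 (hLG i j)) ε hε
    filter_upwards [h] with ν hν
    rwa [dist_eq_norm] at hν
  have e3 : ∀ᶠ ν : ℕ in atTop, ‖((ν : ℂ))⁻¹‖ < ε := by
    have h : Tendsto (fun ν : ℕ => ((ν : ℝ))⁻¹) atTop (𝓝 0) := tendsto_inv_atTop_nhds_zero_nat
    have h' := (Metric.tendsto_nhds.1 h) ε hε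
    filter_upwards [h'] with ν hν
    rw [dist_zero_right] at hν
    rw [norm_inv, Complex.norm_natCast]
    rwa [norm_inv, Real.norm_natCast] at hν
  obtain ⟨ν, hν1, hν2, hν3, hν4, hν5, hν6⟩ :=
    (e1.and (e2.and (e3.and (hunit.and (hL0.and (eventually_ge_atTop 1)))))).exists
  have hν0 : (ν : ℂ) ≠ 0 := by
    have : ν ≠ 0 := by omega
    exact_mod_cast this
  obtain ⟨hH, horb⟩ := h5 d p ν hd hp hν6 hν4
  obtain ⟨a1, a2, a3, a4⟩ := h4 (6 * d + 6) (HM d p ν) ((ν : ℂ) ^ (2 * d))⁻¹ (L ν)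
    (inv_ne_zero (pow_ne_zero _ hν0)) hν4 hH
  refine ⟨ν ^ (2 * d), BM d p ν, Gam (L ν) (HM d p ν), hν1, hν2, a1, a4, a2, a3, hν5, ?_⟩
  intro i
  rw [horb]
  by_cases hi : (i : ℕ) < d
  · simp only [if_pos hi, sub_self, norm_zero]
    exact hε
  · by_cases hi2 : (i : ℕ) = 3 * d + 3
    · simp only [if_neg hi, if_pos hi2, sub_zero]
      exact hν3
    · simp only [if_neg hi, if_neg hi2, sub_zero, norm_zero]
      exact hε

end Pool.Agent.H421R3.BQ
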